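import Pool.Agent.H87.Stab.Mono

/-! The inequality `2 m ≤ |σ|` when the Tristram–Levine signature function is monotone. -/

open Polynomial Matrix

namespace Pool.Agent.Results.MP_29c64e_gt.MonotoneSignature

/-- `det (V - t Vᵀ)`, as a real polynomial in `t`. -/
noncomputable def alexander {n : ℕ} (V : Matrix (Fin n) (Fin n) ℝ) : ℝ[X] :=
  (V.map C - (X : ℝ[X]) • Vᵀ.map C).det

/-- The matrix `(1 - ω) V + (1 - ω⁻¹) Vᵀ` at `ω = exp (i θ)`. -/
noncomputable def levineForm {n : ℕ} (V : Matrix (Fin n) (Fin n) ℝ) (θ : ℝ) :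
    Matrix (Fin n) (Fin n) ℂ :=
  (1 - Complex.exp (θ * Complex.I)) • V.map Complex.ofReal +
    (1 - Complex.exp (-(θ * Complex.I))) • Vᵀ.map Complex.ofReal

theorem levineForm_isHermitian {n : ℕ} (V : Matrix (Fin n) (Fin n) ℝ) (θ : ℝ) :
    (levineForm V θ).IsHermitian := Pool.Agent.H87.Stab.TL_herm V θ

/-- The real symmetric matrix `V + Vᵀ`, as a complex Hermitian matrix. -/
noncomputable def symmetrised {n : ℕ} (V : Matrix (Fin n) (Fin n) ℝ) :
    Matrix (Fin n) (Fin n) ℂ := (V + Vᵀ).map Complex.ofReal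

theorem symmetrised_isHermitian {n : ℕ} (V : Matrix (Fin n) (Fin n) ℝ) :
    (symmetrised V).IsHermitian := Pool.Agent.H87.Stab.Sp_herm V

/-- Signature of a Hermitian matrix: the number of positive eigenvalues minus the number of
negative eigenvalues (`eigenvalues` lists all `n` eigenvalues with multiplicity). -/
noncomputable def signature {n : ℕ} {H : Matrix (Fin n) (Fin n) ℂ} (hH : H.IsHermitian) : ℤ :=
  ((Finset.univ.filter fun i => 0 < hH.eigenvalues i).card : ℤ) -
    (Finset.univ.filter fun i => hH.eigenvalues i < 0).card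

/-- The Tristram–Levine signature function, `θ ↦` signature at `ω = exp (i θ)`. -/
noncomputable def levine {n : ℕ} (V : Matrix (Fin n) (Fin n) ℝ) (θ : ℝ) : ℤ :=
  signature (levineForm_isHermitian V θ)

/-- If `V - Vᵀ` is invertible, the `2 m + 1` middle coefficients of `det (V - t Vᵀ)` are `± A`
with alternating signs, `A ≠ 0`, and the Tristram–Levine signature function is monotone on the
upper half circle, then `2 m ≤ |signature (V + Vᵀ)|`. -/
theorem result (g m : ℕ) (V : Matrix (Fin (2 * g)) (Fin (2 * g)) ℝ) (hV : (V - Vᵀ).det ≠ 0)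
    (A : ℝ) (hA : A ≠ 0)
    (hflat : ∀ j ≤ m, (alexander V).coeff (g + j) = (-1) ^ j * A)
    (hmono : MonotoneOn (levine V) (Set.Ioc 0 Real.pi) ∨
      AntitoneOn (levine V) (Set.Ioc 0 Real.pi)) :
    2 * (m : ℤ) ≤ |signature (symmetrised_isHermitian V)| :=
  Pool.Agent.H87.Stab.monotone_case V hV A hA hflat hmono

end Pool.Agent.Results.MP_29c64e_gt.MonotoneSignature
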