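import Pool.Agent.H87.Stab.Mono

/-! Stable length and the variation of the Tristram–Levine signature function. -/

open Polynomial Matrix
open scoped ENNReal

namespace Pool.Agent.Results.MP_29c64e_gt.SignatureVariation

/-- `det (V - t Vᵀ)`, as a real polynomial in `t`. -/
noncomputable def alexander {n : ℕ} (V : Matrix (Fin n) (Fin n) ℝ) : ℝ[X] :=
  (V.map C - (X : ℝ[X]) • Vᵀ.map C).det

/-- The matrix `(1 - ω) V + (1 - ω⁻¹) Vᵀ` at `ω = exp (i θ)`. -/
noncomputable def levineForm {n : ℕ} (V : Matrix (Fin n) (Fin n) ℝ) (θ : ℝ) :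
    Matrix (Fin n) (Fin n) ℂ :=
  (1 - Complex.exp (θ * Complex.I)) • V.map Complex.ofReal +
    (1 - Complex.exp (-(θ * Complex.I))) • Vᵀ.map Complex.ofReal

theorem levineForm_isHermitian {n : ℕ} (V : Matrix (Fin n) (Fin n) ℝ) (θ : ℝ) :
    (levineForm V θ).IsHermitian := Pool.Agent.H87.Stab.TL_herm V θ

/-- Signature of a Hermitian matrix: the number of positive eigenvalues minus the number of
negative eigenvalues (`eigenvalues` lists all `n` eigenvalues with multiplicity). -/
noncomputable def signature {n : ℕ} {H : Matrix (Fin n) (Fin n) ℂ} (hH : H.IsHermitian) : ℤ :=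
  ((Finset.univ.filter fun i => 0 < hH.eigenvalues i).card : ℤ) -
    (Finset.univ.filter fun i => hH.eigenvalues i < 0).card

/-- If the `2 m + 1` middle coefficients of `det (V - t Vᵀ)` are `± A` with alternating signs,
`A ≠ 0`, then the Tristram–Levine signature function of `V` has total variation at least `2 m` on
the open upper half of the unit circle. -/
theorem result (g m : ℕ) (V : Matrix (Fin (2 * g)) (Fin (2 * g)) ℝ) (A : ℝ) (hA : A ≠ 0)
    (hflat : ∀ j ≤ m, (alexander V).coeff (g + j) = (-1) ^ j * A) :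
    ((2 * m : ℕ) : ℝ≥0∞) ≤
      eVariationOn (fun θ : ℝ => (signature (levineForm_isHermitian V θ) : ℝ))
        (Set.Ioo 0 Real.pi) :=
  Pool.Agent.H87.Stab.variation V A hA hflat

end Pool.Agent.Results.MP_29c64e_gt.SignatureVariation
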